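import Pool.Agent.Y702.L.Pl

/-!
# Totally real subfields of degree `2 ^ n` of `ℚ(ζ_l)`
-/

set_option autoImplicit false

open NumberField

namespace Pool.Agent.V8H35.BK

open IsCyclotomicExtension.Rat (galEquivZMod)

theorem exists_field (l n : ℕ) [NeZero l] (hl : l.Prime) (h : 2 ^ (n + 1) ∣ l - 1) (L : Type) [Field L]
    [NumberField L] [IsCyclotomicExtension {l} ℚ L] :
    ∃ K : IntermediateField ℚ L, Module.finrank ℚ K = 2 ^ n ∧ IsTotallyReal K := by
  have : Fact l.Prime := ⟨hl⟩
  have hgal : IsGalois ℚ L := IsCyclotomicExtension.isGalois {l} ℚ L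
  obtain ⟨j, hj⟩ := h
  have hl1 : 0 < l - 1 := by have := hl.two_le; omega
  set k : ℕ := 2 * j with hk
  have hlk : l - 1 = 2 ^ n * k := by rw [hj, hk]; ring
  have hk0 : 0 < k := by
    rcases Nat.eq_zero_or_pos k with h0 | h0
    · rw [h0, mul_zero] at hlk; omega
    · exact h0
  have hcardU : Nat.card (ZMod l)ˣ = l - 1 := by
    rw [Nat.card_eq_fintype_card, ZMod.card_units]
  let e : Gal(L/ℚ) ≃* (ZMod l)ˣ := galEquivZMod l L
  let H' : Subgroup (ZMod l)ˣ := (powMonoidHom k : (ZMod l)ˣ →* (ZMod l)ˣ).ker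
  have hH' : Nat.card H' = k := by
    have h1 := IsCyclic.card_powMonoidHom_ker (G := (ZMod l)ˣ) k
    rw [hcardU, hlk, Nat.gcd_mul_left_left] at h1
    exact h1
  let H : Subgroup Gal(L/ℚ) := H'.comap e.toMonoidHom
  have hH : Nat.card H = k := by
    rw [← hH']
    exact Nat.card_congr ((e.subgroupMap H).toEquiv.trans (Equiv.setCongr (by
      ext x
      constructor
      · rintro ⟨y, hy, rfl⟩
        exact hy
      · intro hx
        refine ⟨e.symm x, ?_, e.apply_symm_apply x⟩
        show e (e.symm x) ∈ H'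
        rw [e.apply_symm_apply]
        exact hx)))
  refine ⟨IntermediateField.fixedField H, ?_, ?_⟩
  · have h3 : Module.finrank (IntermediateField.fixedField H) L = k := by
      rw [IntermediateField.finrank_fixedField_eq_card, hH]
    have h4 := Module.finrank_mul_finrank ℚ (IntermediateField.fixedField H) L
    have h5 : Module.finrank ℚ L = l - 1 := by
      rw [← IsGalois.card_aut_eq_finrank, Nat.card_congr e.toEquiv, hcardU]
    rw [h3, h5, hlk] at h4
    exact Nat.eq_of_mul_eq_mul_right hk0 h4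
  · refine ⟨fun w => Pool.Agent.Y702.L.real_of_mem (n := l) (L := L) ?_ w⟩
    rw [IntermediateField.fixingSubgroup_fixedField]
    show e (Pool.Agent.Y702.L.cj l L) ∈ H'
    have h1 : e (Pool.Agent.Y702.L.cj l L) = -1 := by
      unfold Pool.Agent.Y702.L.cj
      exact (galEquivZMod l L).apply_symm_apply _
    rw [h1]
    show (-1 : (ZMod l)ˣ) ^ k = 1
    rw [hk, pow_mul, neg_one_sq, one_pow]

end Pool.Agent.V8H35.BK
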