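import Pool.Agent.W401.Cheb.Main
import Pool.Agent.R425.Rt

/-!
# Primes `l ≡ 1` modulo `2 ^ N` such that the number of points of `X_0(11)` modulo `l` is odd

Chebotarev's theorem for the splitting field of `Φ_{2^N} (X³ - 4 X² + 6 X - 2)` and an element of order
three of its Galois group.
-/

set_option autoImplicit false

open Polynomial NumberField

namespace Pool.Agent.V8H35.BK.Pr

open Pool.Agent.W401.Cheb (xp HasFrob infinite_frob)

/-- the cubic polynomial of discriminant `-44` -/
noncomputable def P : ℚ[X] := X ^ 3 - 4 * X ^ 2 + 6 * X - 2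

lemma P_monic : P.Monic := by unfold P; monicity!

lemma P_deg : P.natDegree = 3 := by unfold P; compute_degree!

lemma P_irr : Irreducible P := by
  have h1 : (X ^ 3 - 4 * X ^ 2 + 6 * X - 2 : ℤ[X]).Monic := by monicity!
  have hd : (X ^ 3 - 4 * X ^ 2 + 6 * X - 2 : ℤ[X]).natDegree = 3 := by compute_degree!
  have h2 : Irreducible (X ^ 3 - 4 * X ^ 2 + 6 * X - 2 : ℤ[X]) := by
    rw [h1.irreducible_iff_roots_eq_zero_of_degree_le_three (by rw [hd]; norm_num)
      (by rw [hd])]
    rw [Multiset.eq_zero_iff_forall_notMem]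
    intro x hx
    rw [mem_roots h1.ne_zero, IsRoot.def] at hx
    have h3 : x ^ 3 - 4 * x ^ 2 + 6 * x - 2 = 0 := by simpa using hx
    have h4 : ∀ y : ZMod 3, y ^ 3 - 4 * y ^ 2 + 6 * y - 2 ≠ 0 := by decide
    apply h4 (x : ZMod 3)
    have h5 := congrArg (Int.cast : ℤ → ZMod 3) h3
    push_cast at h5
    exact h5
  have h3 := (h1.irreducible_iff_irreducible_map_fraction_map (K := ℚ)).1 h2
  convert h3 using 1
  unfold P
  simp [Polynomial.map_sub, Polynomial.map_add, Polynomial.map_mul, Polynomial.map_pow]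

/-- an element with `x ^ (2 ^ N) = 1`, `x ≠ 1` has a power `-1` -/
lemma exists_neg_one {R : Type} [CommRing R] [IsDomain R] (x : R) (hx : x ≠ 1) :
    ∀ N : ℕ, x ^ (2 ^ N) = 1 → ∃ i : ℕ, x ^ (2 ^ i) = -1 := by
  intro N
  induction N with
  | zero => intro h; exact absurd (by simpa using h) hx
  | succ N ih =>
    intro h
    have h1 : (x ^ (2 ^ N) - 1) * (x ^ (2 ^ N) + 1) = 0 := by
      have : x ^ (2 ^ (N + 1)) = (x ^ (2 ^ N)) ^ 2 := by rw [← pow_mul, ← pow_succ]
      rw [this] at h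
      linear_combination h
    rcases mul_eq_zero.1 h1 with h2 | h2
    · exact ih (sub_eq_zero.1 h2)
    · exact ⟨N, eq_neg_of_add_eq_zero_left h2⟩

/-- the roots -/
structure Roots (L : Type) [Field L] [NumberField L] (N : ℕ) (ζ a b c : L) : Prop where
  prim : IsPrimitiveRoot ζ (2 ^ N)
  eq : ∀ x : L, x ^ 3 - 4 * x ^ 2 + 6 * x - 2 = (x - a) * (x - b) * (x - c)
  top : IntermediateField.adjoin ℚ ({ζ, a, b, c} : Set L) = ⊤

lemma Roots.vieta {L : Type} [Field L] [NumberField L] {N : ℕ} {ζ a b c : L}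
    (h : Roots L N ζ a b c) : a + b + c = 4 ∧ a * b + b * c + c * a = 6 ∧ a * b * c = 2 := by
  have h0 := h.eq 0
  have h1 := h.eq 1
  have h2 := h.eq (-1)
  have e3 : a * b * c = 2 := by linear_combination h0
  have h3 : 2 * (a + b + c) = 8 := by linear_combination h1 + h2 - 2 * e3
  have e1 : a + b + c = 4 := by linear_combination h3 / 2
  refine ⟨e1, ?_, e3⟩
  linear_combination -h1 + e1 + e3

lemma Roots.disc {L : Type} [Field L] [NumberField L] {N : ℕ} {ζ a b c : L}
    (h : Roots L N ζ a b c) : ((a - b) * (b - c) * (c - a)) ^ 2 = -44 := by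
  obtain ⟨h1, h2, h3⟩ := h.vieta
  have e : ((a - b) * (b - c) * (c - a)) ^ 2 = (a + b + c) ^ 2 * (a * b + b * c + c * a) ^ 2 -
      4 * (a * b + b * c + c * a) ^ 3 - 4 * (a + b + c) ^ 3 * (a * b * c) +
      18 * (a + b + c) * (a * b + b * c + c * a) * (a * b * c) - 27 * (a * b * c) ^ 2 := by ring
  rw [e, h1, h2, h3]
  norm_num

lemma Roots.symm1 {L : Type} [Field L] [NumberField L] {N : ℕ} {ζ a b c : L}
    (h : Roots L N ζ a b c) : Roots L N ζ b c a := by
  refine ⟨h.prim, fun x => ?_, ?_⟩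
  · rw [h.eq x]; ring
  · rw [← h.top]
    congr 1
    ext x
    simp only [Set.mem_insert_iff, Set.mem_singleton_iff]
    tauto

lemma Roots.root {L : Type} [Field L] [NumberField L] {N : ℕ} {ζ a b c : L}
    (h : Roots L N ζ a b c) (x : L) (hx : x ^ 3 - 4 * x ^ 2 + 6 * x - 2 = 0) :
    x = a ∨ x = b ∨ x = c := by
  rw [h.eq x] at hx
  rcases mul_eq_zero.1 hx with h1 | h1
  · rcases mul_eq_zero.1 h1 with h2 | h2
    · exact Or.inl (sub_eq_zero.1 h2)
    · exact Or.inr (Or.inl (sub_eq_zero.1 h2))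
  · exact Or.inr (Or.inr (sub_eq_zero.1 h1))

lemma Roots.map_root {L : Type} [Field L] [NumberField L] {N : ℕ} {ζ a b c : L}
    (h : Roots L N ζ a b c) (σ : Gal(L/ℚ)) : σ a = a ∨ σ a = b ∨ σ a = c := by
  apply h.root
  have h1 : a ^ 3 - 4 * a ^ 2 + 6 * a - 2 = 0 := by rw [h.eq a]; ring
  have h2 := congrArg σ h1
  simpa only [map_sub, map_add, map_mul, map_pow, map_ofNat, map_zero] using h2

/-- an automorphism of order three which fixes `ζ` moves the roots -/
lemma Roots.moves {L : Type} [Field L] [NumberField L] {N : ℕ} {ζ a b c : L}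
    (h : Roots L N ζ a b c) (σ : Gal(L/ℚ)) (h3 : σ ^ 3 = 1) (hne : σ ≠ 1) (hζ : σ ζ = ζ) :
    σ a ≠ a := by
  intro ha
  apply hne
  have hinj := σ.injective
  have h33 : ∀ x, σ (σ (σ x)) = x := fun x => by
    have := DFunLike.congr_fun h3 x
    exact this
  have hb : σ b = b := by
    rcases h.symm1.map_root σ with h1 | h1 | h1
    · exact h1
    · rcases h.symm1.symm1.map_root σ with h2 | h2 | h2
      · exact hinj (by rw [h1, h2])
      · have hca : c = a := hinj (h2.trans ha.symm)
        have hba : b = a := hinj (by rw [h1, hca, ha])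
        rw [hba, ha]
      · have h4 := h33 b
        rw [h1, h2, h1] at h4
        rw [h1, h4]
    · exact (hinj (h1.trans ha.symm)) ▸ ha
  have hc : σ c = c := by
    rcases h.symm1.symm1.map_root σ with h1 | h1 | h1
    · exact h1
    · exact (hinj (h1.trans ha.symm)) ▸ ha
    · exact (hinj (h1.trans hb.symm)) ▸ hb
  have hle : (⊤ : IntermediateField ℚ L) ≤
      IntermediateField.fixedField (Subgroup.zpowers σ) := by
    rw [← h.top, IntermediateField.adjoin_le_iff]
    rintro x hx
    rw [SetLike.mem_coe, IntermediateField.mem_fixedField_iff]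
    intro τ hτ
    have hx' : σ x = x := by
      simp only [Set.mem_insert_iff, Set.mem_singleton_iff] at hx
      rcases hx with rfl | rfl | rfl | rfl <;> assumption
    obtain ⟨k, rfl⟩ := hτ
    have h2 : σ ∈ MulAction.stabilizer Gal(L/ℚ) x := hx'
    exact (MulAction.stabilizer Gal(L/ℚ) x).zpow_mem h2 k
  ext x
  exact (IntermediateField.mem_fixedField_iff _ x).1 (hle trivial) σ (Subgroup.mem_zpowers σ)

/-- an automorphism of order three fixes the roots of unity of order `2 ^ N` -/
lemma fix_zeta {L : Type} [Field L] [NumberField L] {N : ℕ} {ζ : L} (hζ : IsPrimitiveRoot ζ (2 ^ N))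
    (σ : Gal(L/ℚ)) (h3 : σ ^ 3 = 1) : σ ζ = ζ := by
  have : NeZero (2 ^ N) := ⟨by positivity⟩
  set u : (ZMod (2 ^ N))ˣ := hζ.autToPow ℚ σ with hu
  have h1 : u ^ 3 = 1 := by rw [hu, ← map_pow, h3, map_one]
  have h2 : u ^ (Nat.card (ZMod (2 ^ N))ˣ) = 1 := pow_card_eq_one'
  have h4 : Nat.card (ZMod (2 ^ N))ˣ ∣ 2 ^ N := by
    rw [Nat.card_eq_fintype_card, ZMod.card_units_eq_totient]
    rcases N with _ | N
    · simp
    · rw [Nat.totient_prime_pow_succ Nat.prime_two]
      simp only [Nat.add_one_sub_one, mul_one]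
      exact pow_dvd_pow 2 (Nat.le_succ N)
  have h5 : u ^ (2 ^ N) = 1 := by
    exact orderOf_dvd_iff_pow_eq_one.1 ((orderOf_dvd_of_pow_eq_one h2).trans h4)
  have h6 : u = 1 := by
    have h7 : orderOf u ∣ Nat.gcd 3 (2 ^ N) :=
      Nat.dvd_gcd (orderOf_dvd_of_pow_eq_one h1) (orderOf_dvd_of_pow_eq_one h5)
    have h8 : Nat.gcd 3 (2 ^ N) = 1 := Nat.Coprime.pow_right _ (by norm_num)
    rw [h8, Nat.dvd_one, orderOf_eq_one_iff] at h7
    exact h7
  have h7 := hζ.autToPow_spec ℚ σ
  rw [← hu, h6] at h7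
  rw [← h7]
  rcases N with _ | N
  · have : ζ = 1 := by
      have := hζ.pow_eq_one
      simpa using this
    rw [this, one_pow]
  · have : Fact (1 < 2 ^ (N + 1)) := ⟨Nat.one_lt_pow (Nat.succ_ne_zero N) (by norm_num)⟩
    rw [Units.val_one, ZMod.val_one, pow_one]

/-- the field -/
theorem exists_L (N : ℕ) : ∃ (L : Type) (_ : Field L) (_ : NumberField L)
    (_ : IsGalois ℚ L) (ζ a b c : L), Roots L N ζ a b c := by
  classical
  set f : ℚ[X] := cyclotomic (2 ^ N) ℚ * P with hf
  have hspl : IsSplittingField ℚ f.SplittingField f := by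
    convert IsSplittingField.splittingField f
    exact Subsingleton.elim _ _
  have hnor : Normal ℚ f.SplittingField := Normal.of_isSplittingField f
  have hsep : Algebra.IsSeparable ℚ f.SplittingField :=
    Algebra.IsAlgebraic.isSeparable_of_perfectField
  have hgal : IsGalois ℚ f.SplittingField := ⟨⟩
  have hnum : NumberField f.SplittingField :=
    { to_charZero := inferInstance, to_finiteDimensional := inferInstance }
  set L := f.SplittingField with hL
  have hsp : (f.map (algebraMap ℚ L)).Splits := hspl.splits'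
  have hf0 : f ≠ 0 := mul_ne_zero (cyclotomic_ne_zero _ _) P_monic.ne_zero
  have hmap : f.map (algebraMap ℚ L) ≠ 0 := by
    rw [Ne, Polynomial.map_eq_zero]; exact hf0
  have h1 : ((cyclotomic (2 ^ N) ℚ).map (algebraMap ℚ L)).Splits :=
    hsp.of_dvd hmap (Polynomial.map_dvd _ (dvd_mul_right _ _))
  have h2 : (P.map (algebraMap ℚ L)).Splits :=
    hsp.of_dvd hmap (Polynomial.map_dvd _ (dvd_mul_left _ _))
  obtain ⟨ζ, hζ⟩ := h1.exists_eval_eq_zero (by
    rw [degree_map]
    exact (degree_cyclotomic_pos _ _ (by positivity)).ne')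
  have hNe : NeZero ((2 ^ N : ℕ) : L) := ⟨by
    rw [Nat.cast_pow]
    exact pow_ne_zero _ (by norm_num)⟩
  have hprim : IsPrimitiveRoot ζ (2 ^ N) := by
    rw [map_cyclotomic] at hζ
    exact (isRoot_cyclotomic_iff).1 hζ
  have hcard : (P.map (algebraMap ℚ L)).roots.card = 3 := by
    rw [← h2.natDegree_eq_card_roots, natDegree_map, P_deg]
  obtain ⟨a, b, c, habc⟩ := Multiset.card_eq_three.1 hcard
  have hprod : P.map (algebraMap ℚ L) = (X - C a) * (X - C b) * (X - C c) := by
    have h3 := h2.eq_prod_roots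
    rw [(P_monic.map _).leadingCoeff, C_1, one_mul, habc] at h3
    rw [h3]
    simp [mul_assoc]
  have heval : ∀ x : L, (P.map (algebraMap ℚ L)).eval x = x ^ 3 - 4 * x ^ 2 + 6 * x - 2 := by
    intro x
    unfold P
    simp [Polynomial.map_sub, Polynomial.map_add, Polynomial.map_mul, Polynomial.map_pow]
  have heq : ∀ x : L, x ^ 3 - 4 * x ^ 2 + 6 * x - 2 = (x - a) * (x - b) * (x - c) := by
    intro x
    rw [← heval, hprod]
    simp
  refine ⟨L, inferInstance, hnum, hgal, ζ, a, b, c, hprim, heq, ?_⟩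
  have htop := hspl.adjoin_rootSet
  rw [eq_top_iff]
  intro x _
  have hx : x ∈ Algebra.adjoin ℚ (f.rootSet L) := by
    rw [htop]; trivial
  refine (Algebra.adjoin_le (S := (IntermediateField.adjoin ℚ ({ζ, a, b, c} : Set L)).toSubalgebra)
    ?_) hx
  intro y hy
  rw [mem_rootSet] at hy
  obtain ⟨-, hy⟩ := hy
  have hy : aeval y (cyclotomic (2 ^ N) ℚ) = 0 ∨ aeval y P = 0 := by
    rw [← mul_eq_zero, ← map_mul]
    exact hy
  show y ∈ IntermediateField.adjoin ℚ ({ζ, a, b, c} : Set L)
  rcases hy with hy | hy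
  · have hy2 : IsPrimitiveRoot y (2 ^ N) := by
      have h3 : (cyclotomic (2 ^ N) L).IsRoot y := by
        rw [IsRoot.def, ← map_cyclotomic _ (algebraMap ℚ L), eval_map_algebraMap]
        exact hy
      exact (isRoot_cyclotomic_iff).1 h3
    obtain ⟨i, -, hi⟩ := hprim.eq_pow_of_pow_eq_one hy2.pow_eq_one
    rw [← hi]
    exact pow_mem (IntermediateField.subset_adjoin _ _ (by simp)) i
  · have h3 : y ^ 3 - 4 * y ^ 2 + 6 * y - 2 = 0 := by
      rw [← heval, eval_map_algebraMap]
      exact hy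
    rw [heq y] at h3
    rcases mul_eq_zero.1 h3 with h4 | h4
    · rcases mul_eq_zero.1 h4 with h5 | h5
      · rw [sub_eq_zero.1 h5]
        exact IntermediateField.subset_adjoin _ _ (by simp)
      · rw [sub_eq_zero.1 h5]
        exact IntermediateField.subset_adjoin _ _ (by simp)
    · rw [sub_eq_zero.1 h4]
      exact IntermediateField.subset_adjoin _ _ (by simp)

/-- an automorphism of order three -/
theorem exists_sigma {L : Type} [Field L] [NumberField L] [IsGalois ℚ L] {N : ℕ} {ζ a b c : L}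
    (h : Roots L N ζ a b c) : ∃ σ : Gal(L/ℚ), σ ^ 3 = 1 ∧ σ ≠ 1 := by
  have h1 : aeval a P = 0 := by
    have h2 := h.eq a
    unfold P
    simp only [map_sub, map_add, map_mul, map_pow, aeval_X, map_ofNat]
    rw [h2]
    ring
  have h2 : minpoly ℚ a = P := (minpoly.eq_of_irreducible_of_monic P_irr h1 P_monic).symm
  have h3 : Module.finrank ℚ (IntermediateField.adjoin ℚ ({a} : Set L)) = 3 := by
    rw [IntermediateField.adjoin.finrank (Algebra.IsIntegral.isIntegral a), h2, P_deg]
  have h4 : 3 ∣ Nat.card Gal(L/ℚ) := by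
    rw [IsGalois.card_aut_eq_finrank,
      ← Module.finrank_mul_finrank ℚ (IntermediateField.adjoin ℚ ({a} : Set L)) L, h3]
    exact Dvd.intro _ rfl
  have : Fact (Nat.Prime 3) := ⟨Nat.prime_three⟩
  obtain ⟨σ, hσ⟩ := exists_prime_orderOf_dvd_card' 3 h4
  refine ⟨σ, by rw [← hσ]; exact pow_orderOf_eq_one σ, ?_⟩
  rintro rfl
  rw [orderOf_one] at hσ
  norm_num at hσ

/-- the primes of Chebotarev's theorem -/
theorem prime_of {L : Type} [Field L] [NumberField L] {N : ℕ} {ζ a b c : L}
    (h : Roots L N ζ a b c) {σ : Gal(L/ℚ)} (h3 : σ ^ 3 = 1) (hne : σ ≠ 1) {p : ℕ} (hp : p.Prime)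
    (hp22 : ¬ p ∣ 22) (hx : xp L σ p ≠ 0) :
    2 ^ N ∣ p - 1 ∧ ¬ ∃ r : ℤ, (p : ℤ) ∣ r ^ 3 - 4 * r ^ 2 + 6 * r - 2 := by
  classical
  have hfact : Fact p.Prime := ⟨hp⟩
  have hζσ := fix_zeta h.prim σ h3
  unfold xp at hx
  rw [dif_pos hp] at hx
  obtain ⟨⟨φ, hφ⟩⟩ : Nonempty {φ : 𝓞 L →+* AlgebraicClosure (ZMod p) // HasFrob p φ σ} := by
    by_contra hcon
    rw [not_nonempty_iff] at hcon
    exact hx (@Nat.card_of_isEmpty _ hcon)
  have hchar : ∀ n : ℤ, ((n : ℤ) : AlgebraicClosure (ZMod p)) = 0 → (p : ℤ) ∣ n := by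
    intro n hn
    have h1 : CharP (AlgebraicClosure (ZMod p)) p := inferInstance
    exact (CharP.intCast_eq_zero_iff _ p n).1 hn
  have h20 : (2 : AlgebraicClosure (ZMod p)) ≠ 0 := by
    intro h0
    have h1 := hchar 2 (by exact_mod_cast h0)
    have h2 : p ∣ 2 := by exact_mod_cast h1
    exact hp22 (h2.trans (by norm_num))
  have h44 : (-44 : AlgebraicClosure (ZMod p)) ≠ 0 := by
    intro h0
    have h1 := hchar (-44) (by exact_mod_cast h0)
    rw [Int.dvd_neg] at h1
    have h2 : p ∣ 44 := by exact_mod_cast h1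
    have h4 : p ∣ 2 * 22 := h2
    rcases (Nat.Prime.dvd_mul hp).1 h4 with h5 | h5
    · exact hp22 (h5.trans (by norm_num))
    · exact hp22 h5
  have hζi : IsIntegral ℤ ζ := h.prim.isIntegral (by positivity)
  have hint : ∀ x : L, x ^ 3 - 4 * x ^ 2 + 6 * x - 2 = 0 → IsIntegral ℤ x := by
    intro x hx0
    refine ⟨X ^ 3 - 4 * X ^ 2 + 6 * X - 2, by monicity!, ?_⟩
    simp only [eval₂_sub, eval₂_add, eval₂_mul, eval₂_pow, eval₂_X, eval₂_ofNat]
    exact hx0
  let z : 𝓞 L := ⟨ζ, hζi⟩
  let A : 𝓞 L := ⟨a, hint a (by rw [h.eq a]; ring)⟩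
  let B : 𝓞 L := ⟨b, hint b (by rw [h.eq b]; ring)⟩
  let C : 𝓞 L := ⟨c, hint c (by rw [h.eq c]; ring)⟩
  have hgz : σ • z = z := RingOfIntegers.ext hζσ
  constructor
  · -- `p = 1` modulo `2 ^ N`
    have hzN : z ^ (2 ^ N) = 1 := RingOfIntegers.ext (by
      push_cast
      exact h.prim.pow_eq_one)
    have hz0 : φ z ≠ 0 := by
      intro h0
      have h1 := congrArg φ hzN
      rw [map_pow, h0, zero_pow (by positivity), map_one] at h1
      exact zero_ne_one h1
    have hzp : φ z ^ p = φ z := by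
      rw [← hφ z, hgz]
    have hzp1 : φ z ^ (p - 1) = 1 := by
      apply mul_left_cancel₀ hz0
      rw [mul_one, ← pow_succ', Nat.sub_add_cancel hp.one_lt.le, hzp]
    by_contra hcon
    have h1 : z ^ (p - 1) ≠ 1 := by
      intro h2
      apply hcon
      apply h.prim.dvd_of_pow_eq_one
      have h4 := congrArg (fun x : 𝓞 L => (x : L)) h2
      push_cast at h4
      exact h4
    obtain ⟨i, hi⟩ := exists_neg_one (z ^ (p - 1)) h1 N (by
      rw [← pow_mul, mul_comm, pow_mul, hzN, one_pow])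
    have h5 := congrArg φ hi
    rw [map_pow, map_pow, hzp1, one_pow, map_neg, map_one] at h5
    apply h20
    linear_combination h5
  · rintro ⟨r, hr⟩
    have hr0 : ((r : ℤ) : AlgebraicClosure (ZMod p)) ^ 3 - 4 * ((r : ℤ) : AlgebraicClosure (ZMod p)) ^ 2 +
        6 * ((r : ℤ) : AlgebraicClosure (ZMod p)) - 2 = 0 := by
      have h1 : CharP (AlgebraicClosure (ZMod p)) p := inferInstance
      have h2 := (CharP.intCast_eq_zero_iff (AlgebraicClosure (ZMod p)) p _).2 hr
      push_cast at h2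
      exact h2
    have hrp : ((r : ℤ) : AlgebraicClosure (ZMod p)) ^ p = ((r : ℤ) : AlgebraicClosure (ZMod p)) := by
      have h1 : ((r : ZMod p)) ^ p = (r : ZMod p) := ZMod.pow_card _
      have h2 := congrArg (algebraMap (ZMod p) (AlgebraicClosure (ZMod p))) h1
      rw [map_pow, map_intCast] at h2
      exact h2
    obtain ⟨v1, v2, v3⟩ := h.vieta
    have w1 : A + B + C = 4 := RingOfIntegers.ext (by push_cast; exact v1)
    have w2 : A * B + B * C + C * A = 6 := RingOfIntegers.ext (by push_cast; exact v2)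
    have w3 : A * B * C = 2 := RingOfIntegers.ext (by push_cast; exact v3)
    have u1 := congrArg φ w1
    have u2 := congrArg φ w2
    have u3 := congrArg φ w3
    simp only [map_add, map_mul, map_ofNat] at u1 u2 u3
    set R : AlgebraicClosure (ZMod p) := ((r : ℤ) : AlgebraicClosure (ZMod p)) with hR
    have hprod : (R - φ A) * (R - φ B) * (R - φ C) = 0 := by
      rw [← hr0]
      linear_combination -R ^ 2 * u1 + R * u2 - u3
    have hdisc : ((φ A - φ B) * (φ B - φ C) * (φ C - φ A)) ^ 2 = -44 := by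
      have hd : ((A - B) * (B - C) * (C - A)) ^ 2 = -44 := RingOfIntegers.ext (by
        push_cast
        exact h.disc)
      have h1 := congrArg φ hd
      simpa only [map_pow, map_mul, map_sub, map_neg, map_ofNat] using h1
    have hAB : φ A ≠ φ B := by
      intro h1
      apply h44
      rw [← hdisc, h1]
      ring
    have hBC : φ B ≠ φ C := by
      intro h1
      apply h44
      rw [← hdisc, h1]
      ring
    have hCA : φ C ≠ φ A := by
      intro h1
      apply h44
      rw [← hdisc, h1]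
      ring
    have key : ∀ x : 𝓞 L, R = φ x → φ (σ • x) = φ x := by
      intro x hxR
      rw [hφ x, ← hxR, hrp]
    rcases mul_eq_zero.1 hprod with h4 | h4
    · rcases mul_eq_zero.1 h4 with h5 | h5
      · have h6 := key A (sub_eq_zero.1 h5)
        have hm := h.moves σ h3 hne hζσ
        rcases h.map_root σ with h7 | h7 | h7
        · exact hm h7
        · have h8 : σ • A = B := RingOfIntegers.ext h7
          rw [h8] at h6
          exact hAB h6.symm
        · have h8 : σ • A = C := RingOfIntegers.ext h7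
          rw [h8] at h6
          exact hCA h6
      · have h6 := key B (sub_eq_zero.1 h5)
        have hm := h.symm1.moves σ h3 hne hζσ
        rcases h.symm1.map_root σ with h7 | h7 | h7
        · exact hm h7
        · have h8 : σ • B = C := RingOfIntegers.ext h7
          rw [h8] at h6
          exact hBC h6.symm
        · have h8 : σ • B = A := RingOfIntegers.ext h7
          rw [h8] at h6
          exact hAB h6
    · have h6 := key C (sub_eq_zero.1 h4)
      have hm := h.symm1.symm1.moves σ h3 hne hζσ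
      rcases h.symm1.symm1.map_root σ with h7 | h7 | h7
      · exact hm h7
      · have h8 : σ • C = A := RingOfIntegers.ext h7
        rw [h8] at h6
        exact hCA h6.symm
      · have h8 : σ • C = B := RingOfIntegers.ext h7
        rw [h8] at h6
        exact hBC h6

/-- **Infinitely many primes.** -/
theorem infinite (N : ℕ) : {l : ℕ | l.Prime ∧ 2 ^ N ∣ l - 1 ∧ ¬ l ∣ 22 ∧
    Odd (Pool.Agent.W97.MT.ap Pool.Agent.Y702.E11 l)}.Infinite := by
  obtain ⟨L, _, _, _, ζ, a, b, c, h⟩ := exists_L N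
  obtain ⟨σ, h3, hne⟩ := exists_sigma h
  have hinf := infinite_frob L σ
  have hfin : {p : ℕ | p ∣ 22}.Finite :=
    (Set.finite_le_nat 22).subset fun p hp => Nat.le_of_dvd (by norm_num) hp
  refine (hinf.diff hfin).mono ?_
  rintro p ⟨⟨hp, hx⟩, h22⟩
  have h22' : ¬ p ∣ 22 := h22
  obtain ⟨h4, h5⟩ := prime_of h h3 hne hp h22' hx
  refine ⟨hp, h4, h22', ?_⟩
  by_contra hcon
  exact h5 (Pool.Agent.R425.exists_root hp (by rintro rfl; exact h22' (by norm_num))
    (by rintro rfl; exact h22' (by norm_num)) hcon)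

end Pool.Agent.V8H35.BK.Pr
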