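import Mathlib

/-!
# Primes with prescribed quadratic symbols, for the twists of `X_0(49)`
-/

set_option autoImplicit false

namespace Pool.Agent.V8H35.BK.Tw

lemma seven {p : ℕ} (hp : p.Prime) (h4 : p % 4 = 1) :
    IsSquare (-7 : ZMod p) ↔ IsSquare ((p : ℕ) : ZMod 7) := by
  haveI : Fact p.Prime := ⟨hp⟩
  haveI : Fact (Nat.Prime 7) := ⟨by norm_num⟩
  have h1 : IsSquare (-1 : ZMod p) := ZMod.exists_sq_eq_neg_one_iff.2 (by omega)
  have h2 := ZMod.exists_sq_eq_prime_iff_of_mod_four_eq_one (p := p) (q := 7) h4 (by norm_num)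
  rw [← h2]
  have h3 : (-7 : ZMod p) = -1 * ((7 : ℕ) : ZMod p) := by push_cast; ring
  constructor
  · intro h
    have h4 : ((7 : ℕ) : ZMod p) = -1 * (-7 : ZMod p) := by push_cast; ring
    rw [h4]
    exact h1.mul h
  · intro h
    rw [h3]
    exact h1.mul h

/-- any number of primes `≡ 1` modulo `28 r` that are squares modulo each other -/
theorem exP (r k : ℕ) (hr : r.Prime) : ∃ P : Finset ℕ, P.card = k ∧
    (∀ p ∈ P, p.Prime ∧ p % 4 = 1 ∧ p % 7 = 1 ∧ ((p : ℕ) : ZMod r) = 1 ∧ p ≠ r) ∧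
    ∀ p ∈ P, ∀ q ∈ P, IsSquare ((q : ℕ) : ZMod p) := by
  induction k with
  | zero => exact ⟨∅, rfl, by simp, by simp⟩
  | succ k ih =>
    obtain ⟨P, h1, h2, h3⟩ := ih
    set M : ℕ := 28 * r * ∏ p ∈ P, p with hM
    have hM0 : M ≠ 0 := by
      rw [hM]
      refine mul_ne_zero (mul_ne_zero (by norm_num) hr.ne_zero) ?_
      exact Finset.prod_ne_zero_iff.2 fun p hp => (h2 p hp).1.ne_zero
    obtain ⟨l, hl1, hl2, hl3⟩ := Nat.forall_exists_prime_gt_and_modEq (r + P.sup id) hM0
      (Nat.coprime_one_left M)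
    have hlP : l ∉ P := by
      intro h
      have : l ≤ P.sup id := Finset.le_sup (f := id) h
      omega
    have hlr : l ≠ r := by rintro rfl; omega
    have h28 : l ≡ 1 [MOD 28] := hl3.of_dvd (by rw [hM, mul_assoc]; exact Dvd.intro _ rfl)
    have hl4 : l % 4 = 1 := h28.of_dvd (show 4 ∣ 28 by norm_num)
    have hl7 : l % 7 = 1 := h28.of_dvd (show 7 ∣ 28 by norm_num)
    have hlr1 : l ≡ 1 [MOD r] := hl3.of_dvd (by
      rw [hM, mul_comm 28 r, mul_assoc]; exact Dvd.intro _ rfl)
    have hlp : ∀ p ∈ P, l ≡ 1 [MOD p] := fun p hp => hl3.of_dvd (by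
      rw [hM]; exact (Finset.dvd_prod_of_mem _ hp).mul_left _)
    have hz : ∀ m : ℕ, l ≡ 1 [MOD m] → ((l : ℕ) : ZMod m) = 1 := by
      intro m hm
      have := (ZMod.natCast_eq_natCast_iff l 1 m).2 hm
      rwa [Nat.cast_one] at this
    refine ⟨insert l P, by rw [Finset.card_insert_of_notMem hlP, h1], ?_, ?_⟩
    · intro p hp
      rcases Finset.mem_insert.1 hp with rfl | hp
      · exact ⟨hl2, hl4, hl7, hz r hlr1, hlr⟩
      · exact h2 p hp
    · intro p hp q hq
      rcases Finset.mem_insert.1 hp with rfl | hp'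
      · rcases Finset.mem_insert.1 hq with rfl | hq'
        · rw [ZMod.natCast_self]
          exact IsSquare.zero
        · haveI : Fact p.Prime := ⟨hl2⟩
          haveI : Fact q.Prime := ⟨(h2 q hq').1⟩
          have hq2 : q ≠ 2 := by
            have := (h2 q hq').2.1
            rintro rfl
            omega
          rw [ZMod.exists_sq_eq_prime_iff_of_mod_four_eq_one hl4 hq2, hz q (hlp q hq')]
          exact IsSquare.one
      · rcases Finset.mem_insert.1 hq with rfl | hq'
        · rw [hz p (hlp p hp')]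
          exact IsSquare.one
        · exact h3 p hp' q hq'

/-- there is a nonsquare modulo an odd prime -/
lemma nonsq_exists {p : ℕ} (hp : p.Prime) (h2 : p ≠ 2) : ∃ a : ℕ, ¬ IsSquare ((a : ℕ) : ZMod p) := by
  haveI : Fact p.Prime := ⟨hp⟩
  obtain ⟨a, ha⟩ := FiniteField.exists_nonsquare (F := ZMod p) (by rwa [ZMod.ringChar_zmod_n])
  exact ⟨a.val, by rwa [ZMod.natCast_zmod_val]⟩

open scoped Classical in
/-- a prime `≡ 1` modulo `4 r`, inert in `ℚ(√-7)`, with prescribed quadratic symbols modulo `P` -/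
theorem exQ (r : ℕ) (hr : r.Prime) (hr4 : r % 4 = 1) (hr7 : r ≠ 7) (P : Finset ℕ)
    (hP : ∀ p ∈ P, p.Prime ∧ p % 4 = 1 ∧ p ≠ 7 ∧ p ≠ r) (c : ℕ → Prop) (N : ℕ) :
    ∃ q > N, q.Prime ∧ q % 4 = 1 ∧ q % 7 = 3 ∧ ((q : ℕ) : ZMod r) = 1 ∧ q ≠ r ∧ q ∉ P ∧
      ∀ p ∈ P, (IsSquare ((q : ℕ) : ZMod p) ↔ c p) := by
  classical
  have h4p : ∀ p : ℕ, p.Prime → p ≠ 4 := by
    rintro p hp rfl
    exact absurd hp (by norm_num)
  -- the prescribed residues
  have hex : ∀ p : ℕ, ∃ a : ℕ, p.Prime → p ≠ 2 → (a.Coprime p ∧ (IsSquare ((a : ℕ) : ZMod p) ↔ c p)) := by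
    intro p
    by_cases hp : p.Prime ∧ p ≠ 2
    · by_cases hc : c p
      · refine ⟨1, fun _ _ => ⟨Nat.coprime_one_left p, ?_⟩⟩
        rw [Nat.cast_one]
        exact ⟨fun _ => hc, fun _ => IsSquare.one⟩
      · obtain ⟨a, ha⟩ := nonsq_exists hp.1 hp.2
        refine ⟨a, fun _ _ => ⟨?_, ⟨fun h => absurd h ha, fun h => absurd h hc⟩⟩⟩
        rw [Nat.coprime_comm, hp.1.coprime_iff_not_dvd]
        intro hd
        apply ha
        rw [(ZMod.natCast_eq_zero_iff a p).2 hd]
        exact IsSquare.zero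
    · exact ⟨0, fun h1 h2 => absurd ⟨h1, h2⟩ hp⟩
  choose b hb using hex
  let t : Finset ℕ := insert 4 (insert 7 (insert r P))
  let a : ℕ → ℕ := fun m => if m = 4 then 1 else if m = 7 then 3 else if m = r then 1 else b m
  have hmem : ∀ i ∈ t, i = 4 ∨ i = 7 ∨ i = r ∨ i ∈ P := by
    intro i hi
    simpa [t] using hi
  have hs : ∀ i ∈ t, id i ≠ 0 := by
    intro i hi
    rcases hmem i hi with rfl | rfl | rfl | h
    · norm_num
    · norm_num
    · exact hr.ne_zero
    · exact (hP i h).1.ne_zero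
  have hprime : ∀ i ∈ t, i ≠ 4 → i.Prime := by
    intro i hi h4
    rcases hmem i hi with rfl | rfl | rfl | h
    · exact absurd rfl h4
    · norm_num
    · exact hr
    · exact (hP i h).1
  have hodd : ∀ i ∈ t, i ≠ 4 → i ≠ 2 := by
    intro i hi h4
    rcases hmem i hi with rfl | rfl | rfl | h
    · exact absurd rfl h4
    · norm_num
    · rintro rfl; omega
    · have := (hP i h).2.1
      rintro rfl; omega
  have hcop4 : ∀ i ∈ t, i ≠ 4 → Nat.Coprime 4 i := by
    intro i hi h4
    have h5 : Nat.Coprime 2 i := (Nat.coprime_primes Nat.prime_two (hprime i hi h4)).2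
      (hodd i hi h4).symm
    exact Nat.Coprime.pow_left 2 h5
  have hpp : Set.Pairwise (t : Set ℕ) (Function.onFun Nat.Coprime id) := by
    intro i hi j hj hij
    show Nat.Coprime i j
    by_cases h1 : i = 4
    · subst h1
      exact hcop4 j hj (Ne.symm hij)
    · by_cases h2 : j = 4
      · subst h2
        exact (hcop4 i hi h1).symm
      · exact (Nat.coprime_primes (hprime i hi h1) (hprime j hj h2)).2 hij
  obtain ⟨k, hk⟩ := Nat.chineseRemainderOfFinset a id t hs hpp
  have hk' : ∀ i ∈ t, k ≡ a i [MOD i] := hk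
  have hM0 : ∏ i ∈ t, i ≠ 0 := Finset.prod_ne_zero_iff.2 hs
  have hkc : k.Coprime (∏ i ∈ t, i) := by
    refine Nat.Coprime.prod_right fun i hi => ?_
    have h1 := hk' i hi
    have h2 : (a i).Coprime i := by
      show (if i = 4 then 1 else if i = 7 then 3 else if i = r then 1 else b i).Coprime i
      split_ifs with h4 h7 hir
      · exact Nat.coprime_one_left _
      · rw [h7]; norm_num
      · exact Nat.coprime_one_left _
      · rcases hmem i hi with h | h | h | h
        · exact absurd h h4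
        · exact absurd h h7
        · exact absurd h hir
        · exact (hb i (hprime i hi h4) (hodd i hi h4)).1
    have h3 := h1.gcd_eq
    unfold Nat.Coprime at h2 ⊢
    rw [h3, h2]
  obtain ⟨q, hq1, hq2, hq3⟩ := Nat.forall_exists_prime_gt_and_modEq (N + r + P.sup id) hM0 hkc
  have hqi : ∀ i ∈ t, q ≡ a i [MOD i] := fun i hi =>
    (hq3.of_dvd (Finset.dvd_prod_of_mem _ hi)).trans (hk' i hi)
  have hqP : q ∉ P := by
    intro h
    have : q ≤ P.sup id := Finset.le_sup (f := id) h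
    omega
  have hqr : q ≠ r := by rintro rfl; omega
  have e4 : a 4 = 1 := if_pos rfl
  have e7 : a 7 = 3 := by
    show (if 7 = 4 then 1 else if 7 = 7 then 3 else if 7 = r then 1 else b 7) = 3
    norm_num
  have er : a r = 1 := by
    show (if r = 4 then 1 else if r = 7 then 3 else if r = r then 1 else b r) = 1
    rw [if_neg (h4p r hr), if_neg hr7, if_pos rfl]
  have g4 : q ≡ 1 [MOD 4] := by
    have := hqi 4 (by simp [t])
    rwa [e4] at this
  have g7 : q ≡ 3 [MOD 7] := by
    have := hqi 7 (by simp [t])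
    rwa [e7] at this
  have gr : q ≡ 1 [MOD r] := by
    have := hqi r (by simp [t])
    rwa [er] at this
  refine ⟨q, by omega, hq2, g4, g7, ?_, hqr, hqP, fun p hp => ?_⟩
  · have := (ZMod.natCast_eq_natCast_iff q 1 r).2 gr
    rwa [Nat.cast_one] at this
  · have hpt : p ∈ t := by simp [t, hp]
    have ep : a p = b p := by
      show (if p = 4 then 1 else if p = 7 then 3 else if p = r then 1 else b p) = b p
      rw [if_neg (h4p p (hP p hp).1), if_neg (hP p hp).2.2.1, if_neg (hP p hp).2.2.2]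
    have gp := hqi p hpt
    rw [ep] at gp
    rw [(ZMod.natCast_eq_natCast_iff q (b p) p).2 gp]
    exact (hb p (hP p hp).1 (hodd p hpt (h4p p (hP p hp).1))).2

end Pool.Agent.V8H35.BK.Tw
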