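import Pool.Agent.R425.T.Sel

/-!
# The number fields of a group of even Dirichlet characters of order dividing `2 ^ k` are totally real,
# Galois, and of degree a power of two

The proof is a part of the proof of `Pool.Agent.R425.T.core_sel`.
-/

set_option autoImplicit false
set_option linter.all false

open NumberField IsDedekindDomain

namespace Pool.Agent.V8H35.BK

open Pool.Agent.R425.T
open Pool.Agent.Y18.LP (Fam sp cvl UU XX XX_nat XX_pow XX_mul eta_act sp_sub mem_sp dvd_dd)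
open Pool.Agent.Y18.BSD (dd_ne_zero dd_dvd)
open Pool.Agent.R901.EC (fixes deg_pow twk twk_finite badp)
open IsCyclotomicExtension.Rat (galEquivZMod)

open scoped Classical

theorem core_real (H0 : Subgroup Fam) (k : ℕ) (hpow : ∀ c ∈ H0, c ^ (2 ^ k) = 1)
    (hfin : ∀ c ∈ H0, {q | c q ≠ 1}.Finite)
    (hadm : ∀ c ∈ H0, ∀ q, c q ≠ 1 → q.Prime)
    (hpar : ∀ c ∈ H0, par c = 1)
    (F : IntermediateField ℚ ℂ) [NumberField F]
    (hF : F ≤ IntermediateField.adjoin ℚ {x : ℂ | ∃ c ∈ H0,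
      x = Pool.Agent.Y18.LP.eta c (Complex.exp (2 * Real.pi * Complex.I / (Pool.Agent.Y18.BSD.dd (sp c) : ℕ)))}) :
    IsTotallyReal F ∧ IsGalois ℚ F ∧ ∃ j : ℕ, Module.finrank ℚ F = 2 ^ j := by
  obtain ⟨Z0, hZ1, hZ2⟩ := Pool.Agent.Y18.NF.finite_gen F _ hF
  have h1 : ∀ z : ℂ, ∃ c : Fam, c ∈ H0 ∧ (z ∈ Z0 →
      z = Pool.Agent.Y18.LP.eta c (Complex.exp (2 * Real.pi * Complex.I / (Pool.Agent.Y18.BSD.dd (sp c) : ℕ)))) := by
    intro z
    by_cases hz : z ∈ Z0
    · obtain ⟨c, hc, h⟩ := hZ1 hz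
      exact ⟨c, hc, fun _ => h⟩
    · exact ⟨1, H0.one_mem, fun h => absurd h hz⟩
  choose c hcH hc using h1
  set S0 : Finset ℕ := Z0.biUnion fun z => sp (c z) with hS0
  have hS0X : ∀ q ∈ S0, q.Prime := by
    intro q hq
    rw [hS0, Finset.mem_biUnion] at hq
    obtain ⟨z, hz, hqz⟩ := hq
    exact hadm _ (hcH z) q ((mem_sp (hfin _ (hcH z)) q).1 hqz)
  set n : ℕ := Pool.Agent.Y18.BSD.dd S0 with hn
  have hn0 : NeZero n := ⟨dd_ne_zero fun q hq => (hS0X q hq)⟩
  let L := CyclotomicField n ℚ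
  have hcyc : IsCyclotomicExtension {n} ℚ L := CyclotomicField.isCyclotomicExtension n ℚ
  let φ : L →ₐ[ℚ] ℂ := IsAlgClosed.lift
  have hζ := IsCyclotomicExtension.zeta_spec n ℚ L
  have hζφ : IsPrimitiveRoot (φ (IsCyclotomicExtension.zeta n ℚ L)) n :=
    hζ.map_of_injective φ.toRingHom.injective
  have hroot : ∀ y : ℂ, y ^ n = 1 → ∃ z : L, φ z = y ∧ z ^ n = 1 := by
    intro y hy
    obtain ⟨i, -, hi⟩ := hζφ.eq_pow_of_pow_eq_one hy
    refine ⟨IsCyclotomicExtension.zeta n ℚ L ^ i, ?_, ?_⟩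
    · rw [map_pow, hi]
    · rw [← pow_mul, mul_comm, pow_mul, hζ.pow_eq_one, one_pow]
  set ZL : Set L := {x : L | ∃ c ∈ H0, (∀ q, q ∉ S0 → c q = 1) ∧
      ∃ z : L, z ^ Pool.Agent.Y18.BSD.dd (sp c) = 1 ∧ x = Pool.Agent.Y18.LP.eta c z} with hZL
  have hadj : F ≤ (IntermediateField.adjoin ℚ ZL).map φ := by
    refine hZ2.trans ?_
    rw [IntermediateField.adjoin_map]
    refine IntermediateField.adjoin.mono ℚ _ _ ?_
    intro z hz
    have hz' : z ∈ Z0 := hz
    have hsub : sp (c z) ⊆ S0 := Finset.subset_biUnion_of_mem (fun z => sp (c z)) hz'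
    have hM0 : Pool.Agent.Y18.BSD.dd (sp (c z)) ≠ 0 := dd_ne_zero fun q hq => (hS0X q (hsub hq))
    set M := Pool.Agent.Y18.BSD.dd (sp (c z)) with hM
    set y : ℂ := Complex.exp (2 * Real.pi * Complex.I / (M : ℕ)) with hy
    have hyM : y ^ M = 1 := (Complex.isPrimitiveRoot_exp M hM0).pow_eq_one
    obtain ⟨k, hk⟩ : M ∣ n := dd_dvd hsub
    have hyn : y ^ n = 1 := by rw [hk, pow_mul, hyM, one_pow]
    obtain ⟨x, hx1, hx2⟩ := hroot y hyn
    refine ⟨Pool.Agent.Y18.LP.eta (c z) x, ⟨c z, hcH z, fun q hq => ?_, x, ?_, rfl⟩, ?_⟩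
    · by_contra h
      exact hq (hsub ((mem_sp (hfin _ (hcH z)) q).2 h))
    · apply φ.toRingHom.injective
      show φ _ = φ _
      rw [map_pow, map_one, hx1]
      exact hyM
    · show φ (Pool.Agent.Y18.LP.eta (c z) x) = z
      refine Eq.trans ?_ (hc z hz').symm
      unfold Pool.Agent.Y18.LP.eta
      rw [map_sum]
      refine Finset.sum_congr rfl fun u _ => ?_
      rw [map_pow, hx1]
  set F' : IntermediateField ℚ L := F.comap φ with hF'
  have hF'le : F' ≤ IntermediateField.adjoin ℚ ZL := by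
    intro x hx
    have h2 : φ x ∈ F := hx
    obtain ⟨y, hy, hyx⟩ := hadj h2
    have h3 : y = x := φ.toRingHom.injective hyx
    rw [← h3]
    exact hy
  obtain ⟨j, hj⟩ := deg_pow n L F' k (fun σ => fixes n L H0 S0 hS0X dvd_rfl F' hF'le _
    (fun c hc _ => by
      have h2 : galEquivZMod n L (σ ^ (2 ^ k)) = (galEquivZMod n L σ) ^ (2 ^ k) := map_pow _ _ _
      rw [h2, map_pow, XX_pow (hpow c hc)]
      rfl))
  let ψ : F' →+* F :=
    { toFun := fun x => ⟨φ x.1, x.2⟩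
      map_one' := Subtype.ext (map_one φ)
      map_mul' := fun x y => Subtype.ext (map_mul φ x.1 y.1)
      map_zero' := Subtype.ext (map_zero φ)
      map_add' := fun x y => Subtype.ext (map_add φ x.1 y.1) }
  have hψ : Function.Bijective ψ := by
    refine ⟨ψ.injective, fun y => ?_⟩
    obtain ⟨x, -, hx⟩ := hadj y.2
    exact ⟨⟨x, by
      show φ x ∈ F
      have : φ x = y := hx
      rw [this]
      exact y.2⟩, Subtype.ext hx⟩
  let e : F' ≃+* F := RingEquiv.ofBijective ψ hψ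
  let eA : F' ≃ₐ[ℚ] F := AlgEquiv.ofRingEquiv (f := e) (fun r => by
    simp)
  have hgal' : IsGalois ℚ F' := Pool.Agent.Y702.L.gal_F n L F'
  have hgal : IsGalois ℚ F := IsGalois.of_algEquiv eA
  have hjF : Module.finrank ℚ F = 2 ^ j := by
    rw [← hj]
    exact eA.toLinearEquiv.finrank_eq.symm
  have h3 : IsTotallyReal F := by
    have h1 : Pool.Agent.Y702.L.cj n L ∈ F'.fixingSubgroup := by
      rw [IntermediateField.mem_fixingSubgroup_iff]
      refine fixes n L H0 S0 hS0X dvd_rfl F' hF'le _ fun c hc hcS => ?_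
      have h2 : galEquivZMod n L (Pool.Agent.Y702.L.cj n L) = -1 := by
        unfold Pool.Agent.Y702.L.cj
        rw [MulEquiv.apply_symm_apply]
      rw [h2, XX_neg_one c (fun q hq => (dvd_dd hq).trans (dd_dvd (sp_sub S0 hcS).2))]
      exact hpar c hc
    have h2 : IsTotallyReal F' := ⟨fun w => Pool.Agent.Y702.L.real_of_mem h1 w⟩
    exact IsTotallyReal.ofRingEquiv e
  exact ⟨h3, hgal, j, hjF⟩

end Pool.Agent.V8H35.BK
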